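import Pool.Agent.H458.AR.Cmb

/-!
# Project AR: principal submatrices of large corank over the field with two elements
-/

set_option autoImplicit false

open scoped Classical
open Filter Topology

namespace Pool.Agent.H307.AR458

open Pool.Agent.H458.AR

theorem big (k : ℕ) : ∃ m₁ : ℕ, ∀ m ≥ m₁, m ^ k * (2 * m - 1) ^ (m ^ 2 - 1) <
    (2 * m) ^ (m ^ 2 - 1) := by
  have h1 := Real.tendsto_pow_mul_exp_neg_atTop_nhds_zero k
  have h2 : Tendsto (fun m : ℕ => (m : ℝ) / 2) atTop atTop :=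
    tendsto_natCast_atTop_atTop.atTop_div_const (by norm_num)
  have h3 := h1.comp h2
  have h4 : Tendsto (fun m : ℕ => (2 ^ k * Real.exp (1 / 2)) *
      (((m : ℝ) / 2) ^ k * Real.exp (-((m : ℝ) / 2)))) atTop (𝓝 ((2 ^ k * Real.exp (1 / 2)) * 0)) :=
    h3.const_mul _
  rw [mul_zero] at h4
  obtain ⟨m₁, hm₁⟩ := (h4.eventually (gt_mem_nhds (zero_lt_one' ℝ))).exists_forall_of_atTop
  refine ⟨max 1 m₁, fun m hm => ?_⟩
  have hm1 : 1 ≤ m := (le_max_left _ _).trans hm
  have hm2 := hm₁ m ((le_max_right _ _).trans hm)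
  have hmR : (1 : ℝ) ≤ m := by exact_mod_cast hm1
  have hm0 : (0 : ℝ) < m := by linarith
  obtain ⟨N, hN⟩ : ∃ N : ℕ, N = m ^ 2 - 1 := ⟨_, rfl⟩
  have hNR : (N : ℝ) = (m : ℝ) ^ 2 - 1 := by
    rw [hN, Nat.cast_sub (Nat.one_le_pow _ _ (by omega))]
    push_cast
    ring
  rw [← hN]
  have hcast : ((2 * m - 1 : ℕ) : ℝ) = 2 * m - 1 := by
    rw [Nat.cast_sub (by omega)]
    push_cast
    ring
  have key : (m : ℝ) ^ k * (2 * m - 1) ^ N < (2 * m) ^ N := by
    have e1 : (2 * (m : ℝ) - 1) ^ N ≤ (2 * m) ^ N * Real.exp (-(((m : ℝ) - 1) / 2)) := by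
      have e2 : 2 * (m : ℝ) - 1 ≤ (2 * m) * Real.exp (-(1 / (2 * (m : ℝ)))) := by
        have e3 := Real.add_one_le_exp (-(1 / (2 * (m : ℝ))))
        have e4 : (2 * (m : ℝ)) * (-(1 / (2 * (m : ℝ))) + 1) = 2 * m - 1 := by
          field_simp
          ring
        rw [← e4]
        exact mul_le_mul_of_nonneg_left e3 (by positivity)
      have e5 : (2 * (m : ℝ) - 1) ^ N ≤ ((2 * m) * Real.exp (-(1 / (2 * (m : ℝ))))) ^ N :=
        pow_le_pow_left₀ (by linarith) e2 N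
      refine e5.trans ?_
      rw [mul_pow, ← Real.exp_nat_mul]
      refine mul_le_mul_of_nonneg_left ?_ (by positivity)
      apply Real.exp_le_exp.2
      rw [hNR]
      have e6 : ((m : ℝ) ^ 2 - 1) * -(1 / (2 * (m : ℝ))) = -(((m : ℝ) ^ 2 - 1) / (2 * m)) := by
        ring
      rw [e6, neg_le_neg_iff, div_le_div_iff₀ (by norm_num) (by positivity)]
      nlinarith
    have e7 : (m : ℝ) ^ k * Real.exp (-(((m : ℝ) - 1) / 2)) < 1 := by
      have e8 : (m : ℝ) ^ k * Real.exp (-(((m : ℝ) - 1) / 2)) =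
          (2 ^ k * Real.exp (1 / 2)) * (((m : ℝ) / 2) ^ k * Real.exp (-((m : ℝ) / 2))) := by
        rw [div_pow]
        have e9 : Real.exp (-(((m : ℝ) - 1) / 2)) = Real.exp (1 / 2) * Real.exp (-((m : ℝ) / 2)) := by
          rw [← Real.exp_add]
          congr 1
          ring
        rw [e9]
        field_simp
      rw [e8]
      exact hm2
    have e10 : (0 : ℝ) < (2 * m) ^ N := by positivity
    calc (m : ℝ) ^ k * (2 * m - 1) ^ N ≤ (m : ℝ) ^ k * ((2 * m) ^ N *
          Real.exp (-(((m : ℝ) - 1) / 2))) := mul_le_mul_of_nonneg_left e1 (by positivity)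
      _ = (2 * m) ^ N * ((m : ℝ) ^ k * Real.exp (-(((m : ℝ) - 1) / 2))) := by ring
      _ < (2 * m) ^ N * 1 := mul_lt_mul_of_pos_left e7 e10
      _ = (2 * m) ^ N := mul_one _
  have : ((m ^ k * (2 * m - 1) ^ N : ℕ) : ℝ) < (((2 * m) ^ N : ℕ) : ℝ) := by
    rw [Nat.cast_mul, Nat.cast_pow, Nat.cast_pow, Nat.cast_pow, hcast]
    push_cast
    exact key
  exact_mod_cast this

theorem two_pow_le {V : Type} [Fintype V] (A : V → V → ZMod 2) (Y D : Finset V) (n : ℕ)
    (hn : n ≤ D.card) (Φ : (D → ZMod 2) → (V → ZMod 2)) (hΦ : ∀ w, Φ w ∈ Ker A Y)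
    (hinj : Function.Injective Φ) : 2 ^ n ≤ Nat.card (Ker A Y) := by
  have h1 : Nat.card (D → ZMod 2) ≤ Nat.card (Ker A Y) :=
    Nat.card_le_card_of_injective (fun w => (⟨Φ w, hΦ w⟩ : Ker A Y)) fun w w' h =>
      hinj (congrArg Subtype.val h)
  have h2 : Nat.card (D → ZMod 2) = 2 ^ D.card := by
    rw [Nat.card_eq_fintype_card, Fintype.card_fun, ZMod.card, Fintype.card_coe]
  rw [h2] at h1
  exact (Nat.pow_le_pow_right (by norm_num) hn).trans h1

theorem indep {V : Type} [Fintype V] (A : V → V → ZMod 2) (I : Finset V)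
    (h : ∀ x ∈ I, ∀ y ∈ I, A x y = 0) : 2 ^ I.card ≤ Nat.card (Ker A I) := by
  refine two_pow_le A I I I.card le_rfl (fun w j => if hj : j ∈ I then w ⟨j, hj⟩ else 0)
    (fun w => ⟨fun i hi => dif_neg hi, fun i hi => ?_⟩) fun w w' hw => ?_
  · refine Finset.sum_eq_zero fun j _ => ?_
    by_cases hj : j ∈ I
    · rw [h i hi j hj, zero_mul]
    · simp only [dif_neg hj, mul_zero]
  · funext ⟨j, hj⟩
    have := congrFun hw j
    simpa only [dif_pos hj] using this

/-- the cliques `D` and `x (D)` joined by a perfect matching -/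
theorem matching {V : Type} [Fintype V] (A : V → V → ZMod 2) (h0 : ∀ i, A i i = 0)
    (hs : ∀ i j, A i j = A j i) (D : Finset V) (x : V → V)
    (hD : ∀ y ∈ D, ∀ y' ∈ D, y ≠ y' → A y y' = 1)
    (hx : ∀ y ∈ D, ∀ y' ∈ D, x y ≠ x y' → A (x y) (x y') = 1)
    (hxD : ∀ y ∈ D, ∀ l ∈ D, (A (x y) l = 1 ↔ l = y)) (n : ℕ) (hn : n + 1 ≤ D.card)
    (h3 : 3 ≤ D.card) : ∃ Y : Finset V, 2 ^ n ≤ Nat.card (Ker A Y) := by
  have h01 : ∀ z : ZMod 2, z ≠ 1 → z = 0 := by decide
  have hxinj : ∀ y ∈ D, ∀ y' ∈ D, x y = x y' → y = y' := by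
    intro y hy y' hy' h
    have h1 := (hxD y hy y hy).2 rfl
    rw [h] at h1
    exact (hxD y' hy' y hy).1 h1
  have hxnot : ∀ y ∈ D, x y ∉ D := by
    intro y hy hmem
    have hc : 1 < (D.erase (x y)).card := by
      rw [Finset.card_erase_of_mem hmem]
      omega
    obtain ⟨a, ha, b, hb, hab⟩ := Finset.one_lt_card.1 hc
    rw [Finset.mem_erase] at ha hb
    have ha1 := (hxD y hy a ha.2).1 (hD _ hmem a ha.2 ha.1.symm)
    have hb1 := (hxD y hy b hb.2).1 (hD _ hmem b hb.2 hb.1.symm)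
    exact hab (ha1.trans hb1.symm)
  obtain ⟨ys, hys⟩ : D.Nonempty := Finset.card_pos.1 (by omega)
  obtain ⟨E, hE⟩ : ∃ E, E = D.erase ys := ⟨_, rfl⟩
  have hEc : n ≤ E.card := by
    rw [hE, Finset.card_erase_of_mem hys]
    omega
  have hysE : ys ∉ E := by
    rw [hE]
    exact Finset.notMem_erase ys D
  have hDE : D = insert ys E := by
    rw [hE, Finset.insert_erase hys]
  have hED : ∀ y ∈ E, y ∈ D := fun y hy => by
    rw [hDE]
    exact Finset.mem_insert_of_mem hy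
  -- functions on `D` with sum zero
  let ext : (E → ZMod 2) → V → ZMod 2 := fun w j =>
    if hj : j ∈ E then w ⟨j, hj⟩ else if j = ys then ∑ i, w i else 0
  have hextE : ∀ w (j : V) (hj : j ∈ E), ext w j = w ⟨j, hj⟩ := fun w j hj => dif_pos hj
  have hsum : ∀ w, ∑ y ∈ D, ext w y = 0 := by
    intro w
    rw [hDE, Finset.sum_insert hysE]
    have e1 : ext w ys = ∑ i, w i := by
      simp only [ext, dif_neg hysE, if_true]
    have e2 : ∑ y ∈ E, ext w y = ∑ i, w i := by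
      rw [← Finset.sum_coe_sort E (ext w)]
      refine Finset.sum_congr rfl fun i _ => ?_
      exact hextE w i.1 i.2
    rw [e1, e2]
    exact CharTwo.add_self_eq_zero _
  let Φ : (E → ZMod 2) → V → ZMod 2 := fun w j =>
    ∑ y ∈ D, ext w y * ((if j = y then 1 else 0) + (if j = x y then 1 else 0))
  refine ⟨D ∪ D.image x, two_pow_le A _ E n hEc Φ (fun w => ⟨fun i hi => ?_, fun i hi => ?_⟩)
    fun w w' hww => ?_⟩
  · rw [Finset.mem_union, not_or, Finset.mem_image] at hi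
    refine Finset.sum_eq_zero fun y hy => ?_
    have n1 : ¬ (i = y) := fun h => hi.1 (h ▸ hy)
    have n2 : ¬ (i = x y) := fun h => hi.2 ⟨y, hy, h.symm⟩
    rw [if_neg n1, if_neg n2, add_zero, mul_zero]
  · have e1 : ∑ j, A i j * Φ w j = ∑ y ∈ D, ext w y * (A i y + A i (x y)) := by
      simp only [Φ, Finset.mul_sum]
      rw [Finset.sum_comm]
      refine Finset.sum_congr rfl fun y _ => ?_
      have e2 : ∀ j, A i j * (ext w y * ((if j = y then 1 else 0) + (if j = x y then 1 else 0))) =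
          ext w y * ((if j = y then A i j else 0) + (if j = x y then A i j else 0)) := by
        intro j
        split_ifs <;> ring
      rw [Finset.sum_congr rfl fun j _ => e2 j, ← Finset.mul_sum, Finset.sum_add_distrib,
        Finset.sum_ite_eq' Finset.univ y, Finset.sum_ite_eq' Finset.univ (x y),
        if_pos (Finset.mem_univ _), if_pos (Finset.mem_univ _)]
    rw [e1]
    have e3 : ∀ y ∈ D, ext w y * (A i y + A i (x y)) = ext w y := by
      intro y hy
      have e4 : A i y + A i (x y) = 1 := by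
        rw [Finset.mem_union, Finset.mem_image] at hi
        rcases hi with hi | ⟨y₀, hy₀, rfl⟩
        · rw [hs i (x y)]
          by_cases h : i = y
          · rw [h, h0, (hxD y hy y hy).2 rfl, zero_add]
          · rw [hD i hi y hy h, h01 _ (fun h' => h ((hxD y hy i hi).1 h')), add_zero]
        · by_cases h : y = y₀
          · rw [h, h0, (hxD y₀ hy₀ y₀ hy₀).2 rfl, add_zero]
          · rw [h01 _ (fun h' => h ((hxD y₀ hy₀ y hy).1 h')),
              hx y₀ hy₀ y hy (fun h' => h (hxinj y₀ hy₀ y hy h').symm), zero_add]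
      rw [e4, mul_one]
    rw [Finset.sum_congr rfl e3, hsum]
  · have e5 : ∀ w (y₀ : V) (hy₀ : y₀ ∈ E), Φ w y₀ = w ⟨y₀, hy₀⟩ := by
      intro w y₀ hy₀
      have hy₀D := hED y₀ hy₀
      simp only [Φ]
      rw [Finset.sum_eq_single y₀]
      · have n1 : ¬ (y₀ = x y₀) := fun h => hxnot y₀ hy₀D (h ▸ hy₀D)
        rw [if_pos rfl, if_neg n1, add_zero, mul_one, hextE w y₀ hy₀]
      · intro y hy hne
        have n1 : ¬ (y₀ = x y) := fun h => hxnot y hy (h ▸ hy₀D)
        rw [if_neg hne.symm, if_neg n1, add_zero, mul_zero]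
      · intro h
        exact absurd hy₀D h
    funext ⟨y₀, hy₀⟩
    rw [← e5 w y₀ hy₀, ← e5 w' y₀ hy₀, hww]

theorem filt {V : Type} [Fintype V] (p q : V → Prop) (ip : DecidablePred p) (iq : DecidablePred q)
    (h : ∀ l, p l → q l) : (@Finset.filter V p ip Finset.univ).card ≤
      (@Finset.filter V q iq Finset.univ).card := by
  refine Finset.card_le_card fun l hl => ?_
  rw [Finset.mem_filter] at hl ⊢
  exact ⟨hl.1, h l hl.2⟩

theorem gr (h1 : S_RMS) (h2 : S_SEP) (h3 : S_SHT) : S_GR := by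
  intro r
  rcases r with _ | s
  · refine ⟨1, le_rfl, 0, fun m _ V _ A _ _ _ _ => ⟨∅, ?_⟩⟩
    have := indep A ∅ (by simp)
    rwa [Finset.card_empty] at this
  obtain ⟨t, ht⟩ : ∃ t, t = s + 3 := ⟨_, rfl⟩
  obtain ⟨d, hd⟩ : ∃ d, d = t ^ s := ⟨_, rfl⟩
  obtain ⟨e, he⟩ : ∃ e, e = (s + 1) * (2 * d + 1) := ⟨_, rfl⟩
  obtain ⟨m₁, hm₁⟩ := big (2 * (2 * d + 1))
  have he1 : 1 ≤ e := by
    rw [he]
    exact Nat.mul_pos (by omega) (by omega)
  refine ⟨e, he1, max 2 m₁, fun m hm V _ A hV h0 hs hrow => ?_⟩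
  have hm2 : 2 ≤ m := (le_max_left _ _).trans hm
  have hmb := hm₁ m ((le_max_right _ _).trans hm)
  have h01 : ∀ z : ZMod 2, z ≠ 1 → z = 0 := by decide
  let G : SimpleGraph V := SimpleGraph.fromRel fun i j => A i j = 1
  have hG : ∀ i j, G.Adj i j ↔ A i j = 1 := by
    intro i j
    rw [SimpleGraph.fromRel_adj]
    constructor
    · rintro ⟨_, h | h⟩
      · exact h
      · rw [hs]
        exact h
    · intro h
      refine ⟨?_, Or.inl h⟩
      rintro rfl
      rw [h0] at h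
      exact absurd h (by decide)
  by_cases hind : ∃ I : Finset V, I.card = s + 1 ∧ ∀ x ∈ I, ∀ y ∈ I, ¬ G.Adj x y
  · obtain ⟨I, hI, hI'⟩ := hind
    refine ⟨I, ?_⟩
    rw [← hI]
    refine indep A I fun x hx y hy => h01 _ fun h => hI' x hx y hy ((hG x y).2 h)
  -- a large clique
  have hK : ∃ K : Finset V, K.card = m ^ (2 * d + 1) ∧ ∀ x ∈ K, ∀ y ∈ K, x ≠ y → G.Adj x y := by
    rcases h1 V G s (m ^ (2 * d + 1)) Finset.univ (Nat.one_le_pow _ _ (by omega)) (by
      rw [Finset.card_univ, hV, ← pow_mul, he]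
      apply Nat.pow_le_pow_right (by omega)
      rw [mul_comm]
      exact Nat.mul_le_mul_right _ (Nat.le_succ s)) with ⟨I, _, hI, hI'⟩ | ⟨K, _, hK, hK'⟩
    · exact absurd ⟨I, hI, hI'⟩ hind
    · exact ⟨K, hK, hK'⟩
  obtain ⟨K, hKc, hKadj⟩ := hK
  -- few columns which separate its rows
  obtain ⟨Y, hYc, hY⟩ := h2 V m (m ^ 2 - 1) K (fun i l => A i l = 1) (by
    rw [hKc, ← pow_mul, mul_comm (2 * d + 1) 2]
    exact hmb) (by
    intro i hi j hj hij
    have h4 := hrow i j ((hG i j).1 (hKadj i hi j hj hij))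
    have h7 : m ^ e = m * m ^ (e - 1) := by
      rw [← pow_succ', Nat.sub_add_cancel he1]
    rw [hV, h7]
    refine le_trans (Nat.mul_le_mul (show m ≤ 2 * m by omega) h4.le)
      (Nat.mul_le_mul_left _ (filt _ _ _ _ fun l hl => ?_))
    have h6 : ∀ a b : ZMod 2, a ≠ b → ¬ (a = 1 ↔ b = 1) := by decide
    exact h6 _ _ hl)
  -- a shattered set of columns
  obtain ⟨D, _, hDc, hDs⟩ := h3 V d K Y (fun i l => A i l = 1) hY (by
    rw [hKc]
    calc (Y.card + 1) ^ d ≤ (m ^ 2) ^ d := by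
          apply Nat.pow_le_pow_left
          have : 1 ≤ m ^ 2 := Nat.one_le_pow _ _ (by omega)
          omega
      _ = m ^ (2 * d) := by rw [← pow_mul]
      _ < m ^ (2 * d + 1) := Nat.pow_lt_pow_right (by omega) (Nat.lt_succ_self _))
  -- a clique in it
  have hD' : ∃ D' ⊆ D, D'.card = t ∧ ∀ x ∈ D', ∀ y ∈ D', x ≠ y → G.Adj x y := by
    rcases h1 V G s t D (by omega) (by rw [hDc, hd]) with ⟨I, _, hI, hI'⟩ | h
    · exact absurd ⟨I, hI, hI'⟩ hind
    · exact h
  obtain ⟨D', hD'D, hD'c, hD'adj⟩ := hD'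
  have hx : ∀ y : V, ∃ x : V, y ∈ D' → x ∈ K ∧ ∀ l ∈ D, (A x l = 1 ↔ l = y) := by
    intro y
    by_cases hy : y ∈ D'
    · obtain ⟨i, hi, hi'⟩ := hDs {y} (Finset.singleton_subset_iff.2 (hD'D hy))
      refine ⟨i, fun _ => ⟨hi, fun l hl => ?_⟩⟩
      have := hi' l hl
      rwa [Finset.mem_singleton] at this
    · exact ⟨y, fun h => absurd h hy⟩
  choose x hx using hx
  exact matching A h0 hs D' x (fun y hy y' hy' h => (hG _ _).1 (hD'adj y hy y' hy' h))
    (fun y hy y' hy' h => (hG _ _).1 (hKadj _ (hx y hy).1 _ (hx y' hy').1 h))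
    (fun y hy l hl => (hx y hy).2 l (hD'D hl)) (s + 1) (by omega) (by omega)

end Pool.Agent.H307.AR458
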